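import Pool.Agent.Run7.h803.JP.JNSQ2

/-!
# Project JPL (helper784), piece JNSQ

adapted from `Run7/h688/TG/{NB,NC,NSQ}.lean` of helper688
-/

set_option autoImplicit false
set_option linter.all false

open Polynomial
open scoped Classical

namespace Run7.h803.JP

open Run7.h784.TG Run7.h784.JP Run7.h688.TG
open Pool.Agent.N352.PJ (IsGen Crd dsc)
open Run7.h333.TS (ex)

section core

variable {k k' K' W : Type} [Field k] [Field k'] [Algebra k k'] [Field K']
  [Algebra k'[X] K'] [IsFractionRing k'[X] K'] [Field W] [Algebra K' W] [IsAlgClosed W]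
  [IsAlgClosure K' W]

omit [IsFractionRing k'[X] K'] [IsAlgClosed W] [IsAlgClosure K' W] in
theorem fixed_ofJ (h2 : (2 : W) ≠ 0) {ι : Type} {f : ι → k[X][X]} (i : ι) [Fintype (Om k' K' W (f i))]
    (hF : ∀ σ : ∀ j, Equiv.Perm (Om k' K' W (f j)), ∃ τ : W ≃ₐ[K'] W, ∀ j, pm k' K' W (f j) τ = σ j)
    (hodd : Odd (Fintype.card (Om k' K' W (f i))))
    {β : Om k' K' W (f i) → W} (hβ0 : ∀ x, β x ≠ 0)
    (hβ : ∀ τ x, τ (β x) ^ 2 = β (pm k' K' W (f i) τ x) ^ 2)
    (hprod : ∀ τ : W ≃ₐ[K'] W, τ (∏ x, β x) = ∏ x, β x)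
    {s : Finset (Om k' K' W (f i))} (hs : s.Nonempty) (hs' : ∃ j, j ∉ s)
    (hγ : ∀ τ, (∀ j, pm k' K' W (f j) τ = 1) → τ (∏ x ∈ s, β x) = ∏ x ∈ s, β x) :
    ∀ x τ, pm k' K' W (f i) τ x = x → τ (β x) = β x := by
  choose e he using fun (τ : W ≃ₐ[K'] W) (x : Om k' K' W (f i)) => exists_sign τ (hβ τ x)
  have hcast : ∀ u : ℤˣ, ∀ τ : W ≃ₐ[K'] W, τ ((u : ℤ) : W) = ((u : ℤ) : W) := by
    intro u τ
    exact map_intCast τ _
  have hco := cocycJ (fun j => pm k' K' W (f j)) hF i (e := e) (s := s) ?_ ?_ hodd hs hs' ?_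
  · intro x τ hx
    rw [he τ x, hco x τ hx, hx]
    push_cast
    ring
  · intro τ ρ x
    refine unit_cancel h2 (hβ0 (pm k' K' W (f i) τ (pm k' K' W (f i) ρ x))) ?_
    have h1 := he (τ * ρ) x
    rw [AlgEquiv.mul_apply, he ρ x, map_mul, hcast, he τ, map_mul, Equiv.Perm.mul_apply] at h1
    rw [← h1]
    push_cast
    ring
  · intro τ
    have h1 := hprod τ
    rw [map_prod, Finset.prod_congr rfl fun x _ => he τ x, Finset.prod_mul_distrib,
      Equiv.prod_comp (pm k' K' W (f i) τ) β] at h1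
    refine unit_cancel h2 (Finset.prod_ne_zero_iff.2 fun x (_ : x ∈ Finset.univ) => hβ0 x) ?_
    rw [Units.coe_prod]
    push_cast
    rw [one_mul]
    exact h1
  · intro τ hτ
    have h1 := hγ τ hτ
    rw [map_prod, Finset.prod_congr rfl fun x _ => he τ x, Finset.prod_mul_distrib, hτ i] at h1
    simp only [Equiv.Perm.one_apply] at h1
    refine unit_cancel h2 (Finset.prod_ne_zero_iff.2 fun x (_ : x ∈ s) => hβ0 x) ?_
    rw [Units.coe_prod]
    push_cast
    rw [one_mul]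
    exact h1

theorem nsq_coreJ {ι : Type} {g N : ι → ℕ} {r : ι → k[X]} {f : ι → k[X][X]} (hf : ∀ i, Fm (g i) (N i) (r i) (f i))
    (hF : ∀ σ : ∀ j, Equiv.Perm (Om k' K' W (f j)), ∃ τ : W ≃ₐ[K'] W, ∀ j, pm k' K' W (f j) τ = σ j)
    {l : ι → ℕ} {c : ∀ i, Fin (l i) → ℕ} (hc : ∀ i a, 1 ≤ c i a)
    (hsum : ∀ i, ∑ a, c i a = 2 * g i + 1) {H : k[X][X]} {D : k[X]} {A : ∀ i, Fin (l i) → ℕ → k[X][X]}
    (hMd : JMd f c H D A) (i : ι) {B : Finset (Fin (l i))} (hB : B.Nonempty) (hBe : Even (∑ a ∈ B, c i a))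
    {z : Fin (2 * g i + 1) → k[X]} {nα p q : k[X]}
    (hn : ∀ φ : k[X] →+* W, φ nα = (((f i).map φ).roots.map (zp φ z).eval).prod) (hn0 : nα ≠ 0)
    (hq : q ≠ 0) (hpq : q ^ 2 * nα = p ^ 2) {G : k[X][X]} {e : ℕ}
    (hG : ∀ (φ : k[X] →+* W) (y : W), φ D ≠ 0 → eval₂ φ y H = 0 →
      eval₂ φ y G = φ D ^ (2 * e) * nv (∏ a ∈ B, mdl φ (c i) D (A i) y a) (zp φ z))
    (hGS : Run7.h875.TS.GSq k' H G) :
    Run7.h875.TS.GSq k' (f i) (zq z) ∧
    ∀ P Q : k'[X][X], ex k k' (f i) ∣ P * Q → ex k k' (f i) ∣ P ∨ ex k k' (f i) ∣ Q := by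
  obtain ⟨u, w, hw, hu⟩ := hGS
  have hφi : Function.Injective (big k k' K' W) := big_inj
  have hψi : Function.Injective (psi K' W k') := psi_inj
  have h2k : (2 : k) ≠ 0 := (hf i).two
  have h2 : (2 : W) ≠ 0 := by
    have : (big k k' K' W) (C 2) ≠ 0 := by
      rw [Ne, map_eq_zero_iff _ hφi, C_eq_zero]
      exact h2k
    rwa [show (C (2 : k) : k[X]) = 2 from rfl, map_ofNat] at this
  have hd0 : ∀ j, (big k k' K' W) (dsc (g j) (f j)) ≠ 0 := by
    intro j
    rw [Ne, map_eq_zero_iff _ hφi]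
    exact (hf j).fam.sq.ne_zero
  have hm : ∀ j, (f j).Monic := fun j => (hf j).fam.ht.mon
  have hdeg : (f i).natDegree = 2 * g i + 1 := (hf i).fam.ht.deg
  have hs : ∀ j, ((f j).map (big k k' K' W)).Separable := fun j => sep_big (hf j) _ (hd0 j)
  haveI : ∀ j, Finite (Om k' K' W (f j)) := fun j => finite_Om (hm j)
  letI : ∀ j, Fintype (Om k' K' W (f j)) := fun j => Fintype.ofFinite _
  have hcard : Fintype.card (Om k' K' W (f i)) = 2 * g i + 1 := by rw [card_Om (hm i) (hs i), hdeg]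
  have hodd : Odd (Fintype.card (Om k' K' W (f i))) := by
    rw [hcard]
    exact ⟨g i, rfl⟩
  have hFi : Function.Surjective (pm k' K' W (f i)) := by
    intro σ
    obtain ⟨τ, -, h⟩ := exists_one (fun j => pm k' K' W (f j)) hF i σ
    exact ⟨τ, h⟩
  -- a point of the model
  obtain ⟨y, hy⟩ : ∃ y, eval₂ (big k k' K' W) y H = 0 := by
    obtain ⟨y, hy⟩ := IsAlgClosed.exists_root (H.map (big k k' K' W)) (by
      rw [hMd.pc.monic.degree_map, degree_eq_natDegree hMd.pc.monic.ne_zero]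
      exact_mod_cast hMd.pc.pos.ne')
    exact ⟨y, by rw [← eval_map]; exact hy⟩
  have hD : (big k k' K' W) D ≠ 0 := by
    rw [Ne, map_eq_zero_iff _ hφi]
    exact hMd.pc.ne
  have hbij := hMd.bij W (big k k' K' W) hD
  have hfac : mdl (big k k' K' W) (c i) D (A i) y ∈ FacR (big k k' K' W) (f i) (c i) := hbij.mapsTo hy i
  obtain ⟨qq, hqq⟩ : ∃ qq, qq = ∏ a ∈ B, mdl (big k k' K' W) (c i) D (A i) y a := ⟨_, rfl⟩
  have hqm : qq.Monic := by
    rw [hqq]
    exact monic_prod_of_monic _ _ fun a _ => (hfac.1 a).1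
  have hqdeg : qq.natDegree = ∑ a ∈ B, c i a := by
    rw [hqq, natDegree_prod_of_monic _ _ fun a _ => (hfac.1 a).1]
    exact Finset.sum_congr rfl fun a _ => (hfac.1 a).2
  have hqd : qq ∣ (f i).map (big k k' K' W) := by
    rw [← hfac.2, hqq]
    exact Finset.prod_dvd_prod_of_subset _ _ _ (Finset.subset_univ _)
  have hqp := prod_filter (hm i) (hs i) hqm hqd
  obtain ⟨s, hsd⟩ : ∃ s, s = (Finset.univ : Finset (Om k' K' W (f i))).filter
    (fun x : Om k' K' W (f i) => qq.eval (x : W) = 0) := ⟨_, rfl⟩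
  rw [← hsd] at hqp
  have hscard : s.card = ∑ a ∈ B, c i a := by
    rw [← hqdeg, hqp, natDegree_prod_of_monic _ _ (fun x _ => monic_X_sub_C _)]
    simp
  have hsne : s.Nonempty := by
    rw [← Finset.card_pos, hscard]
    obtain ⟨a, ha⟩ := hB
    exact lt_of_lt_of_le (Nat.lt_of_lt_of_le one_pos (hc i a)) (Finset.single_le_sum
      (f := c i) (fun _ _ => Nat.zero_le _) ha)
  have hsne' : ∃ j, j ∉ s := by
    by_contra hcon
    push Not at hcon
    have : s = Finset.univ := Finset.eq_univ_iff_forall.2 hcon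
    rw [this, Finset.card_univ] at hscard
    rw [← hscard] at hBe
    exact (Nat.not_even_iff_odd.2 hodd) hBe
  -- the values
  obtain ⟨av, hav⟩ : ∃ av : Om k' K' W (f i) → W,
    av = fun x : Om k' K' W (f i) => (zp (big k k' K' W) z).eval (x : W) := ⟨_, rfl⟩
  have hroots : ((f i).map (big k k' K' W)).roots = (Finset.univ : Finset (Om k' K' W (f i))).val.map
      (fun x : Om k' K' W (f i) => (x : W)) := by
    have h1 := prod_all (k' := k') (K' := K') (W := W) (hm i) (hs i)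
    rw [h1, Finset.prod_eq_multiset_prod]
    exact (by
      have := roots_multiset_prod_X_sub_C ((Finset.univ : Finset (Om k' K' W (f i))).val.map
        (fun x : Om k' K' W (f i) => (x : W)))
      rw [Multiset.map_map] at this
      exact this)
  have hprodav : (big k k' K' W) nα = ∏ x, av x := by
    rw [hn (big k k' K' W), hroots, Multiset.map_map, Finset.prod_eq_multiset_prod, hav]
    rfl
  have hav0 : ∀ x, av x ≠ 0 := by
    have h1 : ∏ x, av x ≠ 0 := by
      rw [← hprodav, Ne, map_eq_zero_iff _ hφi]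
      exact hn0
    intro x
    exact (Finset.prod_ne_zero_iff.1 h1) x (Finset.mem_univ x)
  have havτ : ∀ (τ : W ≃ₐ[K'] W) x, τ (av x) = av (pm k' K' W (f i) τ x) := by
    intro τ x
    rw [hav]
    simp only
    rw [zp_eq, eval_map, eval_map, tau_eval₂, pm_apply]
  choose β hβ using fun x : Om k' K' W (f i) => IsAlgClosed.exists_pow_nat_eq (av x) (n := 2) two_pos
  have hβ0 : ∀ x, β x ≠ 0 := by
    intro x h0
    apply hav0 x
    rw [← hβ x, h0]
    ring
  have hnv : nv qq (zp (big k k' K' W) z) = ∏ x ∈ s, av x := by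
    rw [nv_prod hqm]
    have h1 : qq.roots = s.val.map (fun x : Om k' K' W (f i) => (x : W)) := by
      conv_lhs => rw [hqp, Finset.prod_eq_multiset_prod]
      have := roots_multiset_prod_X_sub_C (s.val.map (fun x : Om k' K' W (f i) => (x : W)))
      rw [Multiset.map_map] at this
      exact this
    rw [h1, Multiset.map_map, Finset.prod_eq_multiset_prod, hav]
    rfl
  have hfix := fixed_ofJ h2 i hF hodd hβ0 (fun τ x => by
      rw [← map_pow, hβ, havτ, hβ]) (fun τ => by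
      have h1 : ((big k k' K' W) q * ∏ x, β x) ^ 2 = ((big k k' K' W) p) ^ 2 := by
        rw [mul_pow, ← Finset.prod_pow, Finset.prod_congr rfl fun x _ => hβ x, ← hprodav,
          ← map_pow, ← map_mul, hpq, map_pow]
      have hφq : (big k k' K' W) q ≠ 0 := by
        rw [Ne, map_eq_zero_iff _ hφi]
        exact hq
      have hτφ : ∀ a : k[X], τ ((big k k' K' W) a) = (big k k' K' W) a := by
        intro a
        exact tau_big τ a
      have h3 : τ ((big k k' K' W) q * ∏ x, β x) = (big k k' K' W) q * ∏ x, β x := by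
        rcases sq_eq_sq_iff_eq_or_eq_neg.1 h1 with h | h
        · rw [h, hτφ]
        · rw [h, map_neg, hτφ]
      rw [map_mul, hτφ] at h3
      exact mul_left_cancel₀ hφq h3) hsne hsne' (fun τ hτ => by
      have hτφ : ∀ a : k[X], τ ((big k k' K' W) a) = (big k k' K' W) a := by
        intro a
        exact tau_big τ a
      have hτy : τ y = y := by
        refine fixYJ hm hs hbij hy τ fun j a x hx => ?_
        rw [hτ j]
        exact hx
      have h1 : (psi K' W k' w * (big k k' K' W) D ^ e * (∏ x ∈ s, β x)) ^ 2 =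
          (eval₂ (psi K' W k') y u) ^ 2 := by
        have h3 : eval₂ (psi K' W k') y (C (w ^ 2) * G.map (mapRingHom (algebraMap k k')) - u ^ 2) =
            0 := by
          obtain ⟨V, hV⟩ := hu
          rw [hV, eval₂_mul, eval₂_map, ← big_eq', hy, zero_mul]
        rw [eval₂_sub, eval₂_mul, eval₂_C, eval₂_map, ← big_eq', hG _ y hD hy, ← hqq, hnv,
          eval₂_pow, map_pow] at h3
        rw [mul_pow, mul_pow, ← Finset.prod_pow,
          Finset.prod_congr rfl fun x _ => hβ x, ← pow_mul, mul_comm e 2]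
        linear_combination h3
      have hne : psi K' W k' w * (big k k' K' W) D ^ e ≠ 0 := by
        refine mul_ne_zero ?_ (pow_ne_zero _ hD)
        rw [Ne, map_eq_zero_iff _ hψi]
        exact hw
      have h4 : τ (psi K' W k' w * (big k k' K' W) D ^ e * (∏ x ∈ s, β x)) =
          psi K' W k' w * (big k k' K' W) D ^ e * (∏ x ∈ s, β x) := by
        rcases sq_eq_sq_iff_eq_or_eq_neg.1 h1 with h | h
        · rw [h, tau_eval₂', hτy]
        · rw [h, map_neg, tau_eval₂', hτy]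
      rw [map_mul, map_mul, tau_psi, map_pow, hτφ] at h4
      exact mul_left_cancel₀ hne h4)
  -- a root
  have hΩ : Nonempty (Om k' K' W (f i)) := by
    rw [← Fintype.card_pos_iff, hcard]
    omega
  obtain ⟨x₀⟩ := hΩ
  refine ⟨?_, ?_⟩
  · obtain ⟨u₁, w₁, hw₁, hu₁⟩ := exists_num (k' := k') h2 (x₀ : W) (β := β x₀)
      (P := (zq z).map (mapRingHom (algebraMap k k'))) (w₀ := 1) (by
        rw [eval₂_one]
        exact one_ne_zero) (by
        rw [eval₂_one, one_mul, hβ, eval₂_map, ← big_eq', hav]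
        simp only
        rw [zp_eq, eval_map]) (fun τ hτ => hfix x₀ τ (Subtype.ext hτ))
    refine ⟨u₁, w₁, hw₁, ?_⟩
    refine dvd_of_root (hm i) (hs i) hFi x₀ ?_
    rw [eval₂_sub, eval₂_mul, eval₂_C, eval₂_pow, ← hu₁, map_pow, mul_pow, hβ, eval₂_map,
      ← big_eq', hav]
    simp only
    rw [zp_eq, eval_map]
    ring
  · intro P Q hPQ
    have h1 : eval₂ (psi K' W k') (x₀ : W) P * eval₂ (psi K' W k') (x₀ : W) Q = 0 := by
      rw [← eval₂_mul]
      obtain ⟨V, hV⟩ := hPQ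
      rw [hV, eval₂_mul]
      have h3 : eval₂ (psi K' W k') (x₀ : W) (ex k k' (f i)) = 0 := by
        rw [ex, coe_mapRingHom, eval₂_map, ← big_eq']
        exact x₀.2
      rw [h3, zero_mul]
    rcases mul_eq_zero.1 h1 with h | h
    · exact Or.inl (dvd_of_root (hm i) (hs i) hFi x₀ h)
    · exact Or.inr (dvd_of_root (hm i) (hs i) hFi x₀ h)

end core

theorem T_JNSQ : P_JNSQ := by
  intro k _ _ ι _ g N r f hf hF l c hc hsum H D A hMd i B hB hBe K L _ _ _ _ _ _ _ θ hθ α z hα hsq hns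
    hz G e hG k' _ _ _ _ hGS
  haveI : Fintype k := Fintype.ofFinite k
  haveI : FiniteDimensional K L := Module.Finite.of_basis hθ.basis
  have hd : dsc (g i) (f i) ≠ 0 := (hf.fm i).fam.sq.ne_zero
  obtain ⟨nα, hnα, hn⟩ := nrm_big hθ hd hz
  have hN0 : Algebra.norm K α ≠ 0 := Algebra.norm_ne_zero_iff.2 hα
  have hn0 : nα ≠ 0 := by
    rintro rfl
    rw [map_zero] at hnα
    exact hN0 hnα.symm
  obtain ⟨ν, hν⟩ := hsq
  obtain ⟨p, q, hq, hpq⟩ := IsFractionRing.div_surjective (A := k[X]) ν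
  have hq0 : q ≠ 0 := nonZeroDivisors.ne_zero hq
  have hqK : algebraMap k[X] K q ≠ 0 := by
    rwa [Ne, IsFractionRing.to_map_eq_zero_iff (R := k[X])]
  have hpq' : q ^ 2 * nα = p ^ 2 := by
    apply IsFractionRing.injective k[X] K
    rw [map_mul, map_pow, map_pow, hnα, hν, ← hpq]
    field_simp
  obtain ⟨hGf, hI⟩ := nsq_coreJ (k' := k') (K' := FractionRing k'[X])
    (W := AlgebraicClosure (FractionRing k'[X])) hf.fm (surjJ hF) hc hsum hMd i hB hBe
    (hn _) hn0 hq0 hpq' (hG _) hGS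
  obtain ⟨c₁, W, U, hc₁, hW, V, hV⟩ := gsq_desc (k' := k') (hf.fm i).two (hf.fm i).fam.ht.mon hI hGf
  have hinj : Function.Injective (algebraMap k[X] L) := by
    rw [IsScalarTower.algebraMap_eq k[X] K L]
    exact (algebraMap K L).injective.comp (IsFractionRing.injective k[X] K)
  have h3 := congrArg (Polynomial.eval₂ (algebraMap k[X] L) θ) hV
  rw [eval₂_mul, hθ.root, zero_mul, eval₂_sub, eval₂_mul, eval₂_pow, eval₂_C, map_mul,
    map_pow] at h3
  have h4 : (zq z).eval₂ (algebraMap k[X] L) θ = α := by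
    rw [hz]
    unfold zq
    rw [eval₂_finset_sum]
    refine Finset.sum_congr rfl fun i _ => ?_
    rw [eval₂_mul, eval₂_C, eval₂_pow, eval₂_X]
  rw [h4] at h3
  obtain ⟨c₀, hc₀⟩ : ∃ c₀, c₀ = algebraMap k[X] K (C c₁) := ⟨_, rfl⟩
  obtain ⟨w₀, hw₀⟩ : ∃ w₀, w₀ = algebraMap k[X] K W := ⟨_, rfl⟩
  obtain ⟨u₀, hu₀⟩ : ∃ u₀, u₀ = U.eval₂ (algebraMap k[X] L) θ := ⟨_, rfl⟩
  have e1 : algebraMap k[X] L (C c₁) = algebraMap K L c₀ := by
    rw [hc₀, ← IsScalarTower.algebraMap_apply]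
  have e2 : algebraMap k[X] L W = algebraMap K L w₀ := by
    rw [hw₀, ← IsScalarTower.algebraMap_apply]
  rw [e1, e2, ← hu₀] at h3
  have hc₀0 : c₀ ≠ 0 := by
    rw [hc₀, Ne, IsFractionRing.to_map_eq_zero_iff (R := k[X]), C_eq_zero]
    exact hc₁
  have hw₀0 : w₀ ≠ 0 := by
    rwa [hw₀, Ne, IsFractionRing.to_map_eq_zero_iff (R := k[X])]
  have hν0 : ν ≠ 0 := by
    rintro rfl
    rw [mul_zero] at hν
    exact hN0 hν
  have h5 : algebraMap K L c₀ * algebraMap K L w₀ ^ 2 * α = u₀ ^ 2 := by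
    linear_combination h3
  have h6 := congrArg (Algebra.norm K) h5
  rw [map_mul, map_mul, map_pow, map_pow, Algebra.norm_algebraMap, Algebra.norm_algebraMap,
    hθ.rank, hν] at h6
  obtain ⟨η, hη⟩ : ∃ η, η = Algebra.norm K u₀ / (w₀ ^ (2 * g i + 1) * ν * c₀ ^ g i) := ⟨_, rfl⟩
  have h7 : c₀ = η ^ 2 := by
    rw [hη, div_pow, ← h6, eq_div_iff (pow_ne_zero 2 (mul_ne_zero (mul_ne_zero
      (pow_ne_zero _ hw₀0) hν0) (pow_ne_zero _ hc₀0)))]
    ring
  have hη0 : algebraMap K L η ≠ 0 := by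
    rw [Ne, map_eq_zero]
    rintro rfl
    rw [h7] at hc₀0
    simp at hc₀0
  have hwL : algebraMap K L w₀ ≠ 0 := by
    rwa [Ne, map_eq_zero]
  apply hns
  refine ⟨u₀ / (algebraMap K L η * algebraMap K L w₀), ?_⟩
  rw [h7, map_pow] at h5
  field_simp
  linear_combination h5

end Run7.h803.JP
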