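import Pool.Agent.Run7.h803.JP.JA

/-!
# Project JPL (helper784), piece JNSQ2, and the tools for JNSQ

adapted from `Run7/h688/TG/{NB,NSQ2}.lean` of helper688
-/

set_option autoImplicit false
set_option linter.all false

open Polynomial
open scoped Classical

namespace Run7.h803.JP

open Run7.h784.TG Run7.h784.JP Run7.h688.TG
open Pool.Agent.N352.PJ (IsGen Crd dsc)

section roots

variable {k k' K' W : Type} [Field k] [Field k'] [Algebra k k'] [Field K']
  [Algebra k'[X] K'] [Field W] [Algebra K' W]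

/-- The action on the roots of all `f i` is a product of symmetric groups. -/
theorem surjJ {ι : Type} {f : ι → k[X][X]} (hF : JFull f) [IsAlgClosed k'] [Algebra.IsAlgebraic k k']
    [IsFractionRing k'[X] K'] [IsAlgClosure K' W] (σ : ∀ j, Equiv.Perm (Om k' K' W (f j))) :
    ∃ τ : W ≃ₐ[K'] W, ∀ j, pm k' K' W (f j) τ = σ j := by
  obtain ⟨τ, hτ⟩ := hF k' K' W σ
  exact ⟨τ, fun j => Equiv.ext fun x => Subtype.ext (hτ j x)⟩

variable [IsAlgClosed W]

/-- The point `y` of the joint model is fixed by the automorphisms which preserve the colourings. -/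
theorem fixYJ {ι : Type} {f : ι → k[X][X]} [∀ i, Fintype (Om k' K' W (f i))] (hm : ∀ i, (f i).Monic)
    (hs : ∀ i, ((f i).map (big k k' K' W)).Separable) {l : ι → ℕ} {c : ∀ i, Fin (l i) → ℕ} {D : k[X]}
    {A : ∀ i, Fin (l i) → ℕ → k[X][X]} {H : k[X][X]}
    (hb : Set.BijOn (fun (y : W) (i : ι) => mdl (big k k' K' W) (c i) D (A i) y)
      {y | eval₂ (big k k' K' W) y H = 0}
      {a : ∀ i, Fin (l i) → W[X] | ∀ i, a i ∈ FacR (big k k' K' W) (f i) (c i)}) {y : W}
    (hy : eval₂ (big k k' K' W) y H = 0)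
    (τ : W ≃ₐ[K'] W) (hτ : ∀ (i : ι) (a : Fin (l i)) (x : Om k' K' W (f i)),
      (mdl (big k k' K' W) (c i) D (A i) y a).eval (x : W) = 0 →
      (mdl (big k k' K' W) (c i) D (A i) y a).eval (pm k' K' W (f i) τ x : W) = 0) : τ y = y := by
  have hty : eval₂ (big k k' K' W) (τ y) H = 0 := by
    rw [← tau_eval₂, hy, map_zero]
  refine hb.injOn hty hy ?_
  funext i
  funext a
  change mdl (big k k' K' W) (c i) D (A i) (τ y) a = mdl (big k k' K' W) (c i) D (A i) y a
  rw [mdl_map]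
  have hfac : mdl (big k k' K' W) (c i) D (A i) y ∈ FacR (big k k' K' W) (f i) (c i) := hb.mapsTo hy i
  have hdvd : mdl (big k k' K' W) (c i) D (A i) y a ∣ (f i).map (big k k' K' W) := by
    rw [← hfac.2]
    exact Finset.dvd_prod_of_mem _ (Finset.mem_univ a)
  have h1 := prod_filter (hm i) (hs i) (hfac.1 a).1 hdvd
  obtain ⟨S, hS⟩ : ∃ S, S = (Finset.univ : Finset (Om k' K' W (f i))).filter
    (fun x : Om k' K' W (f i) => (mdl (big k k' K' W) (c i) D (A i) y a).eval (x : W) = 0) := ⟨_, rfl⟩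
  rw [← hS] at h1
  have hmap : S.map (pm k' K' W (f i) τ).toEmbedding = S := by
    refine Finset.eq_of_subset_of_card_le ?_ (by rw [Finset.card_map])
    intro x hx
    rw [Finset.mem_map] at hx
    obtain ⟨x', hx', rfl⟩ := hx
    rw [hS, Finset.mem_filter] at hx' ⊢
    exact ⟨Finset.mem_univ _, hτ i a x' hx'.2⟩
  rw [h1, Polynomial.map_prod]
  conv_rhs => rw [← hmap, Finset.prod_map]
  refine Finset.prod_congr rfl fun x _ => ?_
  rw [Polynomial.map_sub, map_X, map_C]
  rfl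

end roots

section core2

variable {k k' K' W : Type} [Field k] [Field k'] [Algebra k k'] [Field K']
  [Algebra k'[X] K'] [IsFractionRing k'[X] K'] [Field W] [Algebra K' W] [IsAlgClosed W]
  [IsAlgClosure K' W]

theorem nsq2_coreJ [Finite k] [IsAlgClosed k'] {ι : Type} [Fintype ι] {g N : ι → ℕ} {r : ι → k[X]}
    {f : ι → k[X][X]} (hf : JF g N r f)
    (hF : ∀ σ : ∀ j, Equiv.Perm (Om k' K' W (f j)), ∃ τ : W ≃ₐ[K'] W, ∀ j, pm k' K' W (f j) τ = σ j)
    {l : ι → ℕ} {c : ∀ i, Fin (l i) → ℕ} {H : k[X][X]} {D : k[X]} {A : ∀ i, Fin (l i) → ℕ → k[X][X]}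
    (hMd : JMd f c H D A) {b : k[X]} (hsf : Squarefree b) (hcop : IsCoprime b (dB g f))
    (hbdeg : 0 < b.natDegree) (hGS : Run7.h875.TS.GSq k' H (C b)) (i₀ : ι) : False := by
  obtain ⟨u, w, hw, hu⟩ := hGS
  have hφi : Function.Injective (big k k' K' W) := big_inj
  have hψi : Function.Injective (psi K' W k') := psi_inj
  have h2k : (2 : k) ≠ 0 := (hf.fm i₀).two
  have h2 : (2 : W) ≠ 0 := by
    have : (big k k' K' W) (C 2) ≠ 0 := by
      rw [Ne, map_eq_zero_iff _ hφi, C_eq_zero]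
      exact h2k
    rwa [show (C (2 : k) : k[X]) = 2 from rfl, map_ofNat] at this
  have hb0 : b ≠ 0 := hsf.ne_zero
  have hds0 : ∀ j, dsc (g j) (f j) ≠ 0 := fun j => (hf.fm j).fam.sq.ne_zero
  have hd0 : ∀ j, (big k k' K' W) (dsc (g j) (f j)) ≠ 0 := by
    intro j
    rw [Ne, map_eq_zero_iff _ hφi]
    exact hds0 j
  have hm : ∀ j, (f j).Monic := fun j => (hf.fm j).fam.ht.mon
  have hs : ∀ j, ((f j).map (big k k' K' W)).Separable := fun j => sep_big (hf.fm j) _ (hd0 j)
  haveI : ∀ j, Finite (Om k' K' W (f j)) := fun j => finite_Om (hm j)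
  letI : ∀ j, Fintype (Om k' K' W (f j)) := fun j => Fintype.ofFinite _
  obtain ⟨y, hy⟩ : ∃ y, eval₂ (big k k' K' W) y H = 0 := by
    obtain ⟨y, hy⟩ := IsAlgClosed.exists_root (H.map (big k k' K' W)) (by
      rw [hMd.pc.monic.degree_map, degree_eq_natDegree hMd.pc.monic.ne_zero]
      exact_mod_cast hMd.pc.pos.ne')
    exact ⟨y, by rw [← eval_map]; exact hy⟩
  have hD : (big k k' K' W) D ≠ 0 := by
    rw [Ne, map_eq_zero_iff _ hφi]
    exact hMd.pc.ne
  have hbij := hMd.bij W (big k k' K' W) hD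
  obtain ⟨β₀, hβ₀⟩ := IsAlgClosed.exists_pow_nat_eq ((big k k' K' W) b) (n := 2) two_pos
  have hβ₀0 : β₀ ≠ 0 := by
    intro h0
    apply hb0
    have : (big k k' K' W) b = 0 := by
      rw [← hβ₀, h0]
      ring
    rwa [map_eq_zero_iff _ hφi] at this
  have hfixβ : ∀ τ : W ≃ₐ[K'] W, τ y = y → τ β₀ = β₀ := by
    intro τ hτy
    have h1 : (psi K' W k' w * β₀) ^ 2 = (eval₂ (psi K' W k') y u) ^ 2 := by
      have h3 : eval₂ (psi K' W k') y (C (w ^ 2) * (C b).map (mapRingHom (algebraMap k k')) -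
          u ^ 2) = 0 := by
        obtain ⟨V, hV⟩ := hu
        rw [hV, eval₂_mul, eval₂_map, ← big_eq', hy, zero_mul]
      rw [eval₂_sub, eval₂_mul, eval₂_C, eval₂_map, ← big_eq', eval₂_C, eval₂_pow, map_pow] at h3
      rw [mul_pow, hβ₀]
      linear_combination h3
    have hne : psi K' W k' w ≠ 0 := by
      rw [Ne, map_eq_zero_iff _ hψi]
      exact hw
    have h4 : τ (psi K' W k' w * β₀) = psi K' W k' w * β₀ := by
      rcases sq_eq_sq_iff_eq_or_eq_neg.1 h1 with h | h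
      · rw [h, tau_eval₂', hτy]
      · rw [h, map_neg, tau_eval₂', hτy]
    rw [map_mul, tau_psi] at h4
    exact mul_left_cancel₀ hne h4
  choose δ hδ hδτ using fun j => exists_delta (k' := k') (K' := K') (W := W) (hf.fm j) (hs j)
  -- characters of the product of the symmetric groups
  have hexs : ∀ τ : W ≃ₐ[K'] W, ∃ e : ℤˣ, τ β₀ = ((e : ℤ) : W) * β₀ := fun τ =>
    exists_sign τ (by rw [← map_pow, hβ₀, tau_big])
  choose e₀ he₀ using hexs
  have hcast : ∀ u : ℤˣ, ∀ τ : W ≃ₐ[K'] W, τ ((u : ℤ) : W) = ((u : ℤ) : W) := by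
    intro u τ
    exact map_intCast τ _
  have hmul : ∀ τ ρ, e₀ (τ * ρ) = e₀ τ * e₀ ρ := by
    intro τ ρ
    refine unit_cancel h2 hβ₀0 ?_
    have h1 := he₀ (τ * ρ)
    rw [AlgEquiv.mul_apply, he₀ ρ, map_mul, hcast, he₀ τ] at h1
    rw [← h1]
    push_cast
    ring
  obtain ⟨J, hJ⟩ := characJ (fun j => pm k' K' W (f j)) hF (MonoidHom.mk' e₀ hmul) (fun τ hτ => by
    change e₀ τ = 1
    have hτy : τ y = y := by
      refine fixYJ hm hs hbij hy τ fun i a x hx => ?_
      rw [hτ i]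
      exact hx
    have h1 := hfixβ τ hτy
    refine unit_cancel h2 hβ₀0 ?_
    rw [← he₀ τ, h1]
    push_cast
    ring)
  have hbs : b.Separable := PerfectField.separable_iff_squarefree.2 hsf
  have hJs : (∏ j ∈ J, dsc (g j) (f j)).Separable := by
    refine Polynomial.separable_prod' (fun x _ y _ hxy => hf.cop x y hxy) fun j _ => ?_
    exact PerfectField.separable_iff_squarefree.2 (hf.fm j).fam.sq
  have hJcop : IsCoprime b (∏ j ∈ J, dsc (g j) (f j)) := by
    refine IsCoprime.of_isCoprime_of_dvd_right hcop ?_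
    unfold dB
    exact Finset.prod_dvd_prod_of_subset _ _ _ (Finset.subset_univ _)
  refine not_sq (k' := k') (B := b * ∏ j ∈ J, dsc (g j) (f j)) h2 (hbs.mul hJs hJcop) ?_
    (γ := β₀ * ∏ j ∈ J, δ j) (by
      rw [mul_pow, hβ₀, ← Finset.prod_pow, map_mul, map_prod, Finset.prod_congr rfl fun j _ => hδ j])
    fun τ => ?_
  · rw [natDegree_mul hb0 (Finset.prod_ne_zero_iff.2 fun j _ => hds0 j)]
    omega
  · have h3 : e₀ τ = ∏ j ∈ J, Equiv.Perm.sign (pm k' K' W (f j) τ) := hJ τ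
    rw [map_mul, he₀, map_prod, Finset.prod_congr rfl fun j _ => hδτ j τ, Finset.prod_mul_distrib, h3,
      Units.coe_prod, Int.cast_prod]
    have h4 : ∀ j, ((Equiv.Perm.sign (pm k' K' W (f j) τ) : ℤ) : W) *
        ((Equiv.Perm.sign (pm k' K' W (f j) τ) : ℤ) : W) = 1 := by
      intro j
      rcases Int.units_eq_one_or (Equiv.Perm.sign (pm k' K' W (f j) τ)) with h | h
      · rw [h]; push_cast; ring
      · rw [h]; push_cast; ring
    have h5 : (∏ j ∈ J, ((Equiv.Perm.sign (pm k' K' W (f j) τ) : ℤ) : W)) *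
        (∏ j ∈ J, ((Equiv.Perm.sign (pm k' K' W (f j) τ) : ℤ) : W)) = 1 := by
      rw [← Finset.prod_mul_distrib]
      exact Finset.prod_eq_one fun j _ => h4 j
    linear_combination (β₀ * ∏ j ∈ J, δ j) * h5

end core2

/-- no polynomial at all -/
theorem nsq2_empty {k : Type} [Field k] [Finite k] {ι : Type} [IsEmpty ι] {f : ι → k[X][X]} {l : ι → ℕ}
    {c : ∀ i, Fin (l i) → ℕ} {H : k[X][X]} {D : k[X]} {A : ∀ i, Fin (l i) → ℕ → k[X][X]}
    (hMd : JMd f c H D A) {b : k[X]} (hsf : Squarefree b) (hbdeg : 0 < b.natDegree) (k' : Type) [Field k']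
    [Algebra k k'] (hGS : Run7.h875.TS.GSq k' H (C b)) : False := by
  obtain ⟨u, w, hw, hu⟩ := hGS
  obtain ⟨W, hW⟩ : ∃ W, W = FractionRing k'[X] := ⟨_, rfl⟩
  have hψi : Function.Injective (algebraMap k'[X] (FractionRing k'[X])) := IsFractionRing.injective _ _
  have hφi : Function.Injective ((algebraMap k'[X] (FractionRing k'[X])).comp (mapRingHom (algebraMap k k'))) :=
    hψi.comp (Polynomial.map_injective _ (algebraMap k k').injective)
  have hD : ((algebraMap k'[X] (FractionRing k'[X])).comp (mapRingHom (algebraMap k k'))) D ≠ 0 := by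
    rw [Ne, map_eq_zero_iff _ hφi]
    exact hMd.pc.ne
  obtain ⟨y, hy, -⟩ := (hMd.bij _ _ hD).surjOn
    (show (fun i => isEmptyElim i) ∈ {a : ∀ i, Fin (l i) → (FractionRing k'[X])[X] | ∀ i, a i ∈
      FacR ((algebraMap k'[X] (FractionRing k'[X])).comp (mapRingHom (algebraMap k k'))) (f i) (c i)} from
        fun i => isEmptyElim i)
  have hy' : eval₂ ((algebraMap k'[X] (FractionRing k'[X])).comp (mapRingHom (algebraMap k k'))) y H = 0 := hy
  have h3 : eval₂ (algebraMap k'[X] (FractionRing k'[X])) y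
      (C (w ^ 2) * (C b).map (mapRingHom (algebraMap k k')) - u ^ 2) = 0 := by
    obtain ⟨V, hV⟩ := hu
    rw [hV, eval₂_mul, eval₂_map, hy', zero_mul]
  rw [eval₂_sub, eval₂_mul, eval₂_C, map_C, eval₂_C, eval₂_pow, coe_mapRingHom, map_pow] at h3
  have hw0 : algebraMap k'[X] (FractionRing k'[X]) w ≠ 0 := by
    rw [Ne, map_eq_zero_iff _ hψi]
    exact hw
  obtain ⟨v, hv⟩ : ∃ v, v = eval₂ (algebraMap k'[X] (FractionRing k'[X])) y u /
    algebraMap k'[X] (FractionRing k'[X]) w := ⟨_, rfl⟩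
  have hv2 : v ^ 2 = algebraMap k'[X] (FractionRing k'[X]) (b.map (algebraMap k k')) := by
    rw [hv, div_pow, div_eq_iff (pow_ne_zero 2 hw0)]
    linear_combination -h3
  have hint : IsIntegral k'[X] (v ^ 2) := by
    rw [hv2]
    exact isIntegral_algebraMap
  obtain ⟨v₀, hv₀⟩ := IsIntegrallyClosed.exists_algebraMap_eq_of_isIntegral_pow (K := FractionRing k'[X])
    (n := 2) two_pos hint
  have h4 : b.map (algebraMap k k') = v₀ * v₀ := by
    apply hψi
    rw [← hv2, ← hv₀, map_mul, sq]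
  have hbs : b.Separable := PerfectField.separable_iff_squarefree.2 hsf
  have hsf' : Squarefree (b.map (algebraMap k k')) := (hbs.map).squarefree
  have h5 : IsUnit v₀ := hsf' v₀ (h4 ▸ dvd_rfl)
  have h6 : IsUnit (b.map (algebraMap k k')) := by
    rw [h4]
    exact h5.mul h5
  have h7 := natDegree_eq_zero_of_isUnit h6
  rw [natDegree_map] at h7
  omega

theorem T_JNSQ2 : P_JNSQ2 := by
  intro k _ _ ι _ g N r f hf hF l c hc hsum H D A hMd b hsf hcop hbdeg k' _ _ _ _ hGS
  rcases isEmpty_or_nonempty ι with hι | ⟨⟨i₀⟩⟩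
  · exact nsq2_empty hMd hsf hbdeg k' hGS
  · exact nsq2_coreJ (k' := k') (K' := FractionRing k'[X])
      (W := AlgebraicClosure (FractionRing k'[X])) hf (surjJ hF) hMd hsf hcop hbdeg hGS i₀

end Run7.h803.JP
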