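import Pool.Agent.Run7.h688.TG.NSQ2
import Pool.Agent.Run7.h784.JP.Stm

/-!
# Project JPL (helper784), pieces JNSQ and JNSQ2: group theory, the joint action

adapted from `Run7/h688/TG/{NA,NB,NC,NSQ,NSQ2}.lean` of helper688
-/

set_option autoImplicit false
set_option linter.all false

open Polynomial
open scoped Classical

namespace Run7.h803.JP

open Run7.h784.TG Run7.h784.JP Run7.h688.TG
open Pool.Agent.N352.PJ (IsGen Crd dsc)

section group

variable {Γ ι : Type} [Group Γ] {Ω : ι → Type} (pm' : ∀ j, Γ →* Equiv.Perm (Ω j))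

/-- the elements which act trivially on the `Ω j`, `j ≠ i` -/
def Sub (i : ι) : Subgroup Γ where
  carrier := {τ | ∀ j, j ≠ i → pm' j τ = 1}
  one_mem' := fun j _ => map_one _
  mul_mem' := fun {a b} ha hb j hj => by rw [map_mul, ha j hj, hb j hj, one_mul]
  inv_mem' := fun {a} ha j hj => by rw [map_inv, ha j hj, inv_one]

variable (hpm : ∀ σ : ∀ j, Equiv.Perm (Ω j), ∃ τ, ∀ j, pm' j τ = σ j)

include hpm

theorem exists_one (i : ι) (σ : Equiv.Perm (Ω i)) : ∃ τ ∈ Sub pm' i, pm' i τ = σ := by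
  obtain ⟨τ, hτ⟩ := hpm (Function.update (fun j => 1) i σ)
  refine ⟨τ, fun j hj => ?_, ?_⟩
  · rw [hτ, Function.update_of_ne hj]
  · rw [hτ, Function.update_self]

theorem exists_other (i : ι) (ρ : Γ) : ∃ τ, pm' i τ = 1 ∧ ∀ j, j ≠ i → pm' j τ = pm' j ρ := by
  obtain ⟨τ, hτ⟩ := hpm (Function.update (fun j => pm' j ρ) i 1)
  refine ⟨τ, ?_, fun j hj => ?_⟩
  · rw [hτ, Function.update_self]
  · rw [hτ, Function.update_of_ne hj]

theorem cocycJ (i : ι) [Fintype (Ω i)] {e : Γ → Ω i → ℤˣ}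
    (he : ∀ τ ρ x, e (τ * ρ) x = e ρ x * e τ (pm' i ρ x))
    (hprod : ∀ τ, ∏ x, e τ x = 1) (hodd : Odd (Fintype.card (Ω i)))
    {s : Finset (Ω i)} (hs : s.Nonempty) (hs' : ∃ j, j ∉ s)
    (hγ : ∀ τ, (∀ j, pm' j τ = 1) → ∏ x ∈ s, e τ x = 1) : ∀ x τ, pm' i τ x = x → e τ x = 1 := by
  have hsurj : Function.Surjective ((pm' i).comp (Sub pm' i).subtype) := by
    intro σ
    obtain ⟨τ, hτ, h⟩ := exists_one pm' hpm i σ
    exact ⟨⟨τ, hτ⟩, h⟩
  have h1 : ∀ x (τ : Sub pm' i), pm' i τ x = x → e τ x = 1 := by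
    refine cocyc ((pm' i).comp (Sub pm' i).subtype) hsurj (e := fun τ x => e τ x) (e₀ := fun _ => 1)
      (s := s) ?_ ?_ hodd hs hs' ?_ ?_
    · intro τ ρ x
      exact he τ ρ x
    · intro τ
      exact hprod τ
    · intro τ ρ
      rw [one_mul]
    · intro τ hτ
      rw [one_mul]
      refine hγ τ fun j => ?_
      by_cases hj : j = i
      · subst hj
        exact hτ
      · exact τ.2 j hj
  have h2 : ∀ τ τ' x, (∀ j, j ≠ i → pm' j τ = pm' j τ') → pm' i τ x = x → pm' i τ' x = x →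
      e τ x = e τ' x := by
    intro τ τ' x h hx hx'
    have hρ : τ'⁻¹ * τ ∈ Sub pm' i := fun j hj => by rw [map_mul, map_inv, h j hj, inv_mul_cancel]
    have hρx : pm' i (τ'⁻¹ * τ) x = x := by
      rw [map_mul, map_inv, Equiv.Perm.mul_apply, hx, Equiv.Perm.inv_eq_iff_eq]
      exact hx'.symm
    have h3 := h1 x ⟨_, hρ⟩ hρx
    have h4 := he τ' (τ'⁻¹ * τ) x
    rw [mul_inv_cancel_left, hρx] at h4
    rw [h4]
    have h5 : e (τ'⁻¹ * τ) x = 1 := h3
    rw [h5, one_mul]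
  have h3 : ∀ τ, pm' i τ = 1 → ∀ x y, e τ x = e τ y := by
    intro τ hτ x y
    obtain ⟨ρ, hρ, hρi⟩ := exists_one pm' hpm i (Equiv.swap x y)
    have h4 := e_conj (pm' i) he τ ρ x (by rw [hτ, Equiv.Perm.one_apply])
    rw [hρi, Equiv.swap_apply_left] at h4
    rw [← h4]
    refine h2 _ _ y (fun j hj => ?_) ?_ ?_
    · rw [map_mul, map_mul, map_inv, hρ j hj, one_mul, inv_one, mul_one]
    · rw [map_mul, map_mul, map_inv, hτ, mul_one, mul_inv_cancel, Equiv.Perm.one_apply]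
    · rw [hτ, Equiv.Perm.one_apply]
  have h4 : ∀ τ, pm' i τ = 1 → ∀ x, e τ x = 1 := by
    intro τ hτ x
    have h5 := hprod τ
    rw [Finset.prod_congr rfl fun y _ => h3 τ hτ y x, Finset.prod_const, Finset.card_univ] at h5
    exact units_odd hodd h5
  intro x τ hx
  obtain ⟨τ', h5, h6⟩ := exists_other pm' hpm i τ
  rw [h2 τ τ' x (fun j hj => (h6 j hj).symm) hx (by rw [h5, Equiv.Perm.one_apply]), h4 τ' h5]

/-- the characters of a product of symmetric groups -/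
theorem characJ [Fintype ι] [∀ j, Fintype (Ω j)] [∀ j, DecidableEq (Ω j)] (e₀ : Γ →* ℤˣ)
    (h : ∀ τ, (∀ j, pm' j τ = 1) → e₀ τ = 1) :
    ∃ J : Finset ι, ∀ τ, e₀ τ = ∏ j ∈ J, Equiv.Perm.sign (pm' j τ) := by
  obtain ⟨P, hP⟩ : ∃ P : Γ →* (∀ j, Equiv.Perm (Ω j)), P = Pi.monoidHom pm' := ⟨_, rfl⟩
  have hPa : ∀ τ j, P τ j = pm' j τ := fun τ j => by rw [hP]; rfl
  have hPs : Function.Surjective P := by
    intro σ
    obtain ⟨τ, hτ⟩ := hpm σ
    exact ⟨τ, funext fun j => by rw [hPa, hτ]⟩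
  have hk : P.ker ≤ e₀.ker := by
    intro τ hτ
    refine h τ fun j => ?_
    rw [← hPa, show P τ = 1 from hτ]
    rfl
  obtain ⟨E, hE⟩ : ∃ E : (∀ j, Equiv.Perm (Ω j)) →* ℤˣ, ∀ τ, E (P τ) = e₀ τ := by
    refine ⟨P.liftOfSurjective hPs ⟨e₀, hk⟩, fun τ => ?_⟩
    exact MonoidHom.liftOfRightInverse_comp_apply _ _ _ ⟨e₀, hk⟩ τ
  -- one factor
  have hone : ∀ j, (∀ σ : Equiv.Perm (Ω j), E (Pi.mulSingle j σ) = 1) ∨
      ∀ σ : Equiv.Perm (Ω j), E (Pi.mulSingle j σ) = Equiv.Perm.sign σ := by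
    intro j
    have h1 := charac (MonoidHom.id (Equiv.Perm (Ω j))) Function.surjective_id
      (E.comp (MonoidHom.mulSingle (fun j => Equiv.Perm (Ω j)) j)) (fun τ hτ => by
        have : τ = 1 := hτ
        rw [this, map_one])
    exact h1
  obtain ⟨J, hJ⟩ : ∃ J : Finset ι, J = Finset.univ.filter
    (fun j => ∀ σ : Equiv.Perm (Ω j), E (Pi.mulSingle j σ) = Equiv.Perm.sign σ) := ⟨_, rfl⟩
  refine ⟨J, fun τ => ?_⟩
  obtain ⟨E', hE'⟩ : ∃ E' : (∀ j, Equiv.Perm (Ω j)) →* ℤˣ, ∀ σ, E' σ =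
      ∏ j ∈ J, Equiv.Perm.sign (σ j) := by
    refine ⟨MonoidHom.mk' (fun σ => ∏ j ∈ J, Equiv.Perm.sign (σ j)) fun σ σ' => ?_, fun σ => rfl⟩
    rw [← Finset.prod_mul_distrib]
    exact Finset.prod_congr rfl fun j _ => map_mul _ _ _
  have hEE : E = E' := by
    refine MonoidHom.pi_ext fun j σ => ?_
    rw [hE']
    by_cases hj : j ∈ J
    · have h1 : E (Pi.mulSingle j σ) = Equiv.Perm.sign σ := by
        rw [hJ, Finset.mem_filter] at hj
        exact hj.2 σ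
      rw [h1, ← Finset.mul_prod_erase J _ hj, Pi.mulSingle_eq_same]
      rw [Finset.prod_eq_one, mul_one]
      intro j' hj'
      rw [Pi.mulSingle_eq_of_ne (Finset.ne_of_mem_erase hj'), Equiv.Perm.sign_one]
    · have h1 : E (Pi.mulSingle j σ) = 1 := by
        rcases hone j with h2 | h2
        · exact h2 σ
        · exfalso
          apply hj
          rw [hJ, Finset.mem_filter]
          exact ⟨Finset.mem_univ _, h2⟩
      rw [h1, Finset.prod_eq_one]
      intro j' hj'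
      have hne : j' ≠ j := by
        rintro rfl
        exact hj hj'
      rw [Pi.mulSingle_eq_of_ne hne, Equiv.Perm.sign_one]
  rw [← hE, hEE, hE']
  exact Finset.prod_congr rfl fun j _ => by rw [hPa]

end group

end Run7.h803.JP
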